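import Pool.Agent.H.MP_0c7e55_an.D

namespace Pool.Agent.Results.MP_0c7e55_an.No

open MeasureTheory Filter Topology Real

/-- The left shift. -/
def shift {Λ : Type} (x : ℕ → Λ) : ℕ → Λ := fun n => x (n + 1)

open Classical in
/-- Fraction of the positions `i < N` with `p i`. -/
noncomputable def freq (p : ℕ → Prop) (N : ℕ) : ℝ := (∑ i ∈ Finset.range N, if p i then 1 else 0) / N

section
variable {X : Type} [MeasurableSpace X] (μ : Measure X) (T : X → X)

/-- Entropy of the join of `P, T⁻¹ P, …, T⁻⁽ⁿ⁻¹⁾ P`. -/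
noncomputable def Hn {k : ℕ} (P : X → Fin k) (n : ℕ) : ℝ :=
  ∑ w : Fin n → Fin k, negMulLog (μ.real {x | ∀ i : Fin n, P (T^[i] x) = w i})

/-- Kolmogorov-Sinai entropy. -/
noncomputable def ks : EReal :=
  ⨆ (k : ℕ) (P : X → Fin k) (_ : Measurable P), limsup (fun n : ℕ => ((Hn μ T P n / n : ℝ) : EReal)) atTop

/-- Invariant probability measure. -/
def Inv : Prop := IsProbabilityMeasure μ ∧ MeasurePreserving T μ μ

/-- Not a one-point system modulo null sets. -/
def Nontriv : Prop := ∃ A, MeasurableSet A ∧ μ A ≠ 0 ∧ μ Aᶜ ≠ 0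

/-- Every nontrivial factor has positive entropy. -/
def CPE : Prop := ∀ (Y : Type) [MeasurableSpace Y] (ν : Measure Y) (R : Y → Y) (q : X → Y),
  Inv ν R → MeasurePreserving q μ ν → (∀ᵐ x ∂μ, q (T x) = R (q x)) → Nontriv ν → 0 < ks ν R

end

section
variable {Λ : Type} [MeasurableSpace Λ] (μ : Measure (ℕ → Λ))

def Generic (x : ℕ → Λ) : Prop := ∀ (n : ℕ) (B : Fin n → Λ),
  Tendsto (freq fun i => ∀ k : Fin n, x (i + k) = B k) atTop (𝓝 (μ.real {z | ∀ k : Fin n, z k = B k}))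

def SimplyNormal (z : ℕ → Λ) : Prop := ∀ a, Tendsto (freq fun i => z i = a) atTop (𝓝 (μ.real {y | y 0 = a}))

def Preserves (S : Set ℕ) : Prop := ∀ x, Generic μ x → SimplyNormal μ fun i => x (Nat.nth (· ∈ S) i)

end

open Classical in
/-- Measures quasi-generated by the indicator of `S`. -/
def Derived (S : Set ℕ) (ν : Measure (ℕ → Bool)) : Prop :=
  Inv ν shift ∧ ∃ N : ℕ → ℕ, StrictMono N ∧ ∀ c : C(ℕ → Bool, ℝ), Tendsto (fun k =>
    (∑ i ∈ Finset.range (N k), c (shift^[i] fun n => decide (n ∈ S))) / N k) atTop (𝓝 (∫ z, c z ∂ν))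

def Deterministic (S : Set ℕ) : Prop := ∀ ν, Derived S ν → ks ν shift = 0

open Pool.Agent.H.MP_0c7e55_an

lemma it {Λ : Type} (i : ℕ) (x : ℕ → Λ) : shift^[i] x = sh i x := by
  induction i generalizing x with
  | zero => rfl
  | succ i ih => exact (ih _).trans (sh_sh i 1 x)

lemma pos {Λ : Type} [MeasurableSpace Λ] [DiscreteMeasurableSpace Λ] {μ : Measure (ℕ → Λ)} (h : Inv μ shift)
    (H : 0 < ks μ shift) : Pos μ := by
  haveI := h.1
  simp only [ks, lt_iSup_iff] at H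
  obtain ⟨k, P, hP, H⟩ := H
  obtain ⟨c, c0, hc⟩ := EReal.lt_iff_exists_real_btwn.1 H
  refine pos_of h.2 hP (EReal.coe_pos.1 c0) (((frequently_lt_of_lt_limsup (h := hc)).and_eventually
    (eventually_gt_atTop 0)).mono fun n ⟨a, b⟩ => ?_)
  refine ((lt_div_iff₀ (by exact_mod_cast b)).1 (EReal.coe_lt_coe_iff.1 a)).le.trans_eq
    (Finset.sum_congr rfl fun w _ => congrArg (fun s => negMulLog (μ.real s)) (Set.ext fun x => ?_))
  simp [it, funext_iff]

lemma ks0 {X : Type} [MeasurableSpace X] (μ : Measure X) [IsProbabilityMeasure μ] (T : X → X) : 0 ≤ ks μ T :=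
  le_iSup₂_of_le 1 0 (le_iSup_of_le measurable_const (le_limsup_of_frequently_le (.of_forall fun n =>
    EReal.coe_nonneg.2 (div_nonneg (Finset.sum_nonneg fun _ _ => negMulLog_nonneg measureReal_nonneg
      measureReal_le_one) n.cast_nonneg))))

theorem result (Λ : Type) [Countable Λ] [MeasurableSpace Λ] [DiscreteMeasurableSpace Λ]
    (μ : Measure (ℕ → Λ)) (h : Inv μ shift) (S : Set ℕ) (hS : S.Infinite) (hD : ¬ Deterministic S) :
    (0 < ks μ shift → ¬ Preserves μ S) ∧ (CPE μ shift → Nontriv μ → ¬ Preserves μ S) := by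
  have a : 0 < ks μ shift → ¬ Preserves μ S := fun H k => by
    simp only [Deterministic, not_forall] at hD
    obtain ⟨ν, ⟨h', N, hN, hν⟩, H'⟩ := hD
    haveI := h.1
    haveI := h'.1
    simp only [it] at hν
    obtain ⟨x, b, c⟩ := main h.2 (pos h H) h'.2 (pos h' ((ks0 ν _).lt_of_ne' H')) hS hN.tendsto_atTop hν
    exact c (k x b)
  exact ⟨a, fun b c => a (b _ μ shift id h (.id μ) (.of_forall fun _ => rfl) c)⟩

end Pool.Agent.Results.MP_0c7e55_an.No
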